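import Pool.Agent.R280.LipZ

/-!
The Lipschitz-free space of a pointed metric space.
-/

set_option autoImplicit false

universe u

namespace Pool.Agent.U559.DL

open Pool.Agent.R280.Lip

variable {M : Type u} [MetricSpace M] {o : M}

/-- The evaluation functional `δ_x(f) = f(x)` on `Lip_0(M)`. -/
noncomputable def delta (o x : M) : StrongDual ℝ (LipZ M o ℝ) :=
  LinearMap.mkContinuous
    { toFun := fun f => f.fn x
      map_add' := fun _ _ => rfl
      map_smul' := fun _ _ => rfl } (dist x o) (fun f => by
        have h := f.sub_le x o
        rw [LipZ.fn_base, sub_zero] at h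
        rw [mul_comm]
        exact h)

lemma delta_apply (x : M) (f : LipZ M o ℝ) : delta o x f = f.fn x := rfl

/-- The closed linear span of the evaluation functionals in the dual of `Lip_0(M)`. -/
noncomputable def freeSub (M : Type u) [MetricSpace M] (o : M) :
    Submodule ℝ (StrongDual ℝ (LipZ M o ℝ)) :=
  (Submodule.span ℝ (Set.range (delta o))).topologicalClosure

/-- The Lipschitz-free space `F(M)`: the closed linear span of the evaluation functionals in the
dual of `Lip_0(M)`, with the norm of this dual. -/
def FreeSpace (M : Type u) [MetricSpace M] (o : M) : Type u := ↥(freeSub M o)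

noncomputable instance : NormedAddCommGroup (FreeSpace M o) :=
  (inferInstance : NormedAddCommGroup ↥(freeSub M o))

noncomputable instance : NormedSpace ℝ (FreeSpace M o) :=
  (inferInstance : NormedSpace ℝ ↥(freeSub M o))

/-- the inclusion into the dual of `Lip_0(M)` -/
def FreeSpace.val (μ : FreeSpace M o) : StrongDual ℝ (LipZ M o ℝ) := Subtype.val μ

lemma FreeSpace.norm_val (μ : FreeSpace M o) : ‖μ.val‖ = ‖μ‖ := rfl

end Pool.Agent.U559.DL
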