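import Pool.Agent.U559.DL.Vec
import Pool.Agent.H130R4.DADefs

/-!
The two formulations of the Daugavet property.
-/

set_option autoImplicit false

open Set Topology Filter

universe v

namespace Pool.Agent.U559.DL

open Pool.Agent.R280.Lip Pool.Agent.H130R4.DA

variable {Z : Type v} [NormedAddCommGroup Z] [NormedSpace ℝ Z]

/-- The two formulations of the Daugavet property agree. -/
theorem daugavet_iff : Daugavet Z ↔ DaugavetProperty ℝ Z := by
  constructor
  · intro h T hT
    obtain ⟨⟨w, hw⟩, hw0, hwspan⟩ := finrank_eq_one_iff'.mp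
      (show Module.finrank ℝ (LinearMap.range (T : Z →ₗ[ℝ] Z)) = 1 from hT)
    have hw0' : w ≠ 0 := fun h => hw0 (Subtype.ext h)
    have hwn : 0 < ‖w‖ := norm_pos_iff.mpr hw0'
    obtain ⟨ψ, hψ1, hψ2⟩ := exists_dual_vector ℝ w hwn.ne'
    set G : StrongDual ℝ Z := (‖w‖⁻¹ : ℝ) • (ψ.comp T) with hGdef
    have hTG : T = G.smulRight w := by
      ext u
      obtain ⟨c, hc⟩ := hwspan ⟨T u, LinearMap.mem_range_self _ u⟩
      have hc' : c • w = T u := congrArg Subtype.val hc
      have h1 : G u = ‖w‖⁻¹ * ψ (T u) := rfl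
      have hψ2' : ψ w = ‖w‖ := hψ2
      rw [ContinuousLinearMap.smulRight_apply, h1, ← hc', map_smul, hψ2', smul_eq_mul]
      have h2 : ‖w‖⁻¹ * (c * ‖w‖) = c := by
        field_simp
      rw [h2]
    have hG0 : G ≠ 0 := by
      intro h1
      obtain ⟨u, hu⟩ := hw
      apply hw0'
      rw [← hu]
      show T u = 0
      rw [hTG, h1]
      simp
    rw [hTG]
    exact h G w hG0 hw0'
  · intro h φ g hφ hg
    refine h (φ.smulRight g) ?_
    obtain ⟨v, hv⟩ : ∃ v, φ v ≠ 0 := by
      by_contra hcon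
      push Not at hcon
      exact hφ (ContinuousLinearMap.ext hcon)
    have hr : LinearMap.range ((φ.smulRight g : Z →L[ℝ] Z) : Z →ₗ[ℝ] Z) =
        Submodule.span ℝ {g} := by
      ext y
      rw [Submodule.mem_span_singleton]
      constructor
      · rintro ⟨x, rfl⟩
        exact ⟨φ x, rfl⟩
      · rintro ⟨c, rfl⟩
        refine ⟨(c / φ v) • v, ?_⟩
        show φ ((c / φ v) • v) • g = c • g
        rw [map_smul, smul_eq_mul, div_mul_cancel₀ _ hv]
    show Module.finrank ℝ (LinearMap.range ((φ.smulRight g : Z →L[ℝ] Z) : Z →ₗ[ℝ] Z)) = 1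
    rw [hr]; exact finrank_span_singleton hg

end Pool.Agent.U559.DL
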