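import Pool.Agent.U559.DL.Iff
import Pool.Agent.U559.DL.Defs
import Pool.Agent.H130R4.DA6

/-!
The Daugavet property of `F(M) ⊗ X`.
-/

set_option autoImplicit false
set_option linter.unusedSectionVars false
set_option synthInstance.maxHeartbeats 400000

open Set Topology Filter
open scoped TensorProduct

universe u v w

namespace Pool.Agent.U559.DL

open Pool.Agent.R280.Lip Pool.Agent.H130R4.DA

section abstract

variable {Z : Type v} [NormedAddCommGroup Z] [NormedSpace ℝ Z]
  {Y : Type w} [NormedAddCommGroup Y] [NormedSpace ℝ Y]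

/-- The Daugavet property passes from the dual to the space. -/
theorem daugavet_of_dual (hD : Daugavet (StrongDual ℝ Z)) : Daugavet Z := by
  refine daugavet_of fun φ g hφ hg ε hε => ?_
  have hg' : ‖NormedSpace.inclusionInDoubleDual ℝ Z g‖ = 1 := by
    rw [← hg]
    exact (NormedSpace.inclusionInDoubleDualLi (𝕜 := ℝ) (E := Z)).norm_map g
  obtain ⟨ψ, h1, h2, h3⟩ := hD.exists_vec (φ := NormedSpace.inclusionInDoubleDual ℝ Z g) (g := φ)
    hg' hφ (κ := ε / 4) (by positivity)
  have h2' : 1 - ε / 4 ≤ ψ g := h2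
  obtain ⟨v, hv1, hv2⟩ : ∃ v : Z, ‖v‖ ≤ 1 ∧ 2 - ε / 2 < (ψ + φ) v := by
    obtain ⟨z, hz1, hz2⟩ := (ψ + φ).exists_lt_apply_of_lt_opNorm (r := 2 - ε / 2) (by linarith)
    rw [Real.norm_eq_abs] at hz2
    rcases lt_abs.1 hz2 with h | h
    · exact ⟨z, hz1.le, h⟩
    · exact ⟨-z, by rw [norm_neg]; exact hz1.le, by rwa [map_neg]⟩
  have e1 : ψ v ≤ 1 := by
    have := (le_abs_self _).trans (ψ.le_opNorm v)
    have h4 := mul_le_mul h1 hv1 (norm_nonneg _) zero_le_one
    rw [mul_one] at h4
    exact this.trans h4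
  have e2 : φ v ≤ 1 := by
    have := (le_abs_self _).trans (φ.le_opNorm v)
    rw [hφ, one_mul] at this
    exact this.trans hv1
  have e3 : (ψ + φ) v = ψ v + φ v := rfl
  rw [e3] at hv2
  refine ⟨v, by linarith, ?_, ?_⟩
  · rw [abs_le]
    constructor <;> linarith
  · have e4 : ψ (v + g) ≤ ‖v + g‖ := by
      have := (le_abs_self _).trans (ψ.le_opNorm (v + g))
      exact this.trans (mul_le_of_le_one_left (norm_nonneg _) h1)
    rw [map_add] at e4
    linarith

/-- The Daugavet property is invariant under isometric isomorphisms. -/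
theorem daugavet_congr (e : Y ≃ₗᵢ[ℝ] Z) (hD : Daugavet Y) : Daugavet Z := by
  refine daugavet_of fun φ g hφ hg ε hε => ?_
  have h1 : ‖φ.comp (e : Y →L[ℝ] Z)‖ = 1 := by
    rw [← hφ]
    exact φ.opNorm_comp_linearIsometryEquiv e
  have h2 : ‖e.symm g‖ = 1 := by rw [e.symm.norm_map, hg]
  obtain ⟨h, hh1, hh2, hh3⟩ := hD.exists_vec h1 h2 hε
  have hh2' : 1 - ε ≤ φ (e h) := hh2
  refine ⟨e h, by rw [e.norm_map]; linarith, ?_, ?_⟩
  · have e1 : φ (e h) ≤ 1 := by
      have := (le_abs_self _).trans (φ.le_opNorm (e h))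
      rw [hφ, one_mul, e.norm_map] at this
      exact this.trans hh1
    rw [abs_le]
    constructor <;> linarith
  · have e2 : e h + g = e (h + e.symm g) := by rw [map_add, e.apply_symm_apply]
    rw [e2, e.norm_map]
    exact hh3

end abstract

section free

variable {M : Type u} [MetricSpace M] {o : M}

/-- `δ_x` as an element of the free space -/
noncomputable def dl (o x : M) : FreeSpace M o :=
  (⟨delta o x, Submodule.le_topologicalClosure _ (Submodule.subset_span ⟨x, rfl⟩)⟩ :
    ↥(freeSub M o))

lemma norm_dl_sub_le (x y : M) : ‖dl o x - dl o y‖ ≤ dist x y := by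
  show ‖delta o x - delta o y‖ ≤ _
  refine ContinuousLinearMap.opNorm_le_bound _ dist_nonneg fun f => ?_
  show ‖f.fn x - f.fn y‖ ≤ _
  rw [mul_comm]
  exact f.sub_le x y

lemma dl_base : dl o o = 0 := by
  have h := norm_dl_sub_le (o := o) o o
  apply Subtype.ext
  refine ContinuousLinearMap.ext fun f => ?_
  show f.fn o = 0
  exact f.fn_base

/-- Density of the span of the evaluations. -/
lemma free_induction {p : FreeSpace M o → Prop} (h0 : p 0) (h1 : ∀ x, p (dl o x))
    (hadd : ∀ a b, p a → p b → p (a + b)) (hsmul : ∀ (c : ℝ) a, p a → p (c • a))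
    (hcl : IsClosed {a | p a}) (a : FreeSpace M o) : p a := by
  -- the closed submodule of the good elements
  let S : Submodule ℝ (FreeSpace M o) :=
    { carrier := {a | p a}
      add_mem' := fun {a b} ha hb => hadd a b ha hb
      zero_mem' := h0
      smul_mem' := fun c a ha => hsmul c a ha }
  have hspan : ∀ (z : StrongDual ℝ (LipZ M o ℝ)) (hz : z ∈ Submodule.span ℝ (Set.range (delta o))),
      (show FreeSpace M o from (⟨z, Submodule.le_topologicalClosure _ hz⟩ : ↥(freeSub M o))) ∈ S := by
    intro z hz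
    induction hz using Submodule.span_induction with
    | mem z hz =>
      obtain ⟨x, rfl⟩ := hz
      exact h1 x
    | zero => exact h0
    | add a b ha hb iha ihb => exact hadd _ _ iha ihb
    | smul c a ha iha => exact hsmul c _ iha
  obtain ⟨z, hz⟩ := a
  have hz' : z ∈ closure (Submodule.span ℝ (Set.range (delta o)) :
      Set (StrongDual ℝ (LipZ M o ℝ))) := hz
  rw [mem_closure_iff_seq_limit] at hz'
  obtain ⟨s, hs1, hs2⟩ := hz'
  have hlim : Tendsto (fun n => (show FreeSpace M o from
      (⟨s n, Submodule.le_topologicalClosure _ (hs1 n)⟩ : ↥(freeSub M o))))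
      atTop (𝓝 (show FreeSpace M o from (⟨z, hz⟩ : ↥(freeSub M o)))) := tendsto_subtype_rng.2 hs2
  exact hcl.mem_of_tendsto hlim (Eventually.of_forall fun n => hspan _ (hs1 n))

variable {X : Type v} [NormedAddCommGroup X] [NormedSpace ℝ X]

/-- the coordinate `f(·)(y)` of a map into the dual -/
noncomputable def coord (f : LipZ M o (StrongDual ℝ X)) (y : X) : LipZ M o ℝ :=
  LipZ.mk' (fun x => f.fn x y) (by rw [f.fn_base]; rfl) (‖f‖ * ‖y‖) (by positivity) (fun a b => by
    have h1 : f.fn a y - f.fn b y = (f.fn a - f.fn b) y := rfl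
    rw [h1]
    refine ((f.fn a - f.fn b).le_opNorm y).trans ?_
    have h2 := mul_le_mul_of_nonneg_right (f.sub_le a b) (norm_nonneg y)
    linarith)

lemma norm_coord_le (f : LipZ M o (StrongDual ℝ X)) (y : X) : ‖coord f y‖ ≤ ‖f‖ * ‖y‖ := by
  refine LipZ.norm_le_of _ (by positivity) fun a b => ?_
  have h1 : (coord f y).fn a - (coord f y).fn b = (f.fn a - f.fn b) y := rfl
  rw [h1]
  refine ((f.fn a - f.fn b).le_opNorm y).trans ?_
  have h2 := mul_le_mul_of_nonneg_right (f.sub_le a b) (norm_nonneg y)
  linarith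

/-- Every Lipschitz map into `X*` comes from a functional of the same norm on the projective tensor
product. -/
theorem exists_functional (f : LipZ M o (StrongDual ℝ X)) :
    ∃ G : StrongDual ℝ (ProjectiveTensorProduct ℝ (FreeSpace M o) X), ‖G‖ ≤ ‖f‖ ∧
      ∀ x y, G (incl (ProjTensor.tmul ℝ (dl o x) y)) = f.fn x y := by
  have hbd : ∀ (y : X) (μ : FreeSpace M o),
      ‖μ.val (coord f y)‖ ≤ ‖f‖ * ‖y‖ * ‖μ‖ := by
    intro y μ
    refine (μ.val.le_opNorm (coord f y)).trans ?_
    have h1 := mul_le_mul_of_nonneg_left (norm_coord_le f y) (norm_nonneg μ.val)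
    rw [FreeSpace.norm_val] at h1 ⊢
    linarith
  let B : X →L[ℝ] StrongDual ℝ (FreeSpace M o) :=
    LinearMap.mkContinuous₂ (LinearMap.mk₂ ℝ
      (fun (y : X) (μ : FreeSpace M o) => μ.val (coord f y))
      (fun y y' μ => by
        have h : coord f (y + y') = coord f y + coord f y' :=
          LipZ.ext fun x => map_add (f.fn x) y y'
        rw [h, map_add])
      (fun c y μ => by
        have h : coord f (c • y) = c • coord f y := LipZ.ext fun x => map_smul (f.fn x) c y
        rw [h, map_smul])
      (fun y μ μ' => rfl)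
      (fun c y μ => rfl)) ‖f‖ hbd
  have hB : ∀ y (μ : FreeSpace M o), B y μ = μ.val (coord f y) :=
    fun y μ => rfl
  obtain ⟨G, hG1, hG2⟩ := exists_functional_of_bilin B ‖f‖ (norm_nonneg _) (fun y =>
    ContinuousLinearMap.opNorm_le_bound _ (by positivity) fun μ => by
      rw [hB]
      exact hbd y μ)
  refine ⟨G, hG1, fun x y => ?_⟩
  rw [hG2, hB]
  rfl

/-- The Lipschitz map associated with a functional. -/
noncomputable def toLip (G : StrongDual ℝ (ProjectiveTensorProduct ℝ (FreeSpace M o) X)) :
    LipZ M o (StrongDual ℝ X) :=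
  LipZ.mk' (fun x => LinearMap.mkContinuous
    { toFun := fun y => G (incl (ProjTensor.tmul ℝ (dl o x) y))
      map_add' := fun y y' => by
        have : ProjTensor.tmul ℝ (dl o x) (y + y') =
            ProjTensor.tmul ℝ (dl o x) y + ProjTensor.tmul ℝ (dl o x) y' :=
          TensorProduct.tmul_add (dl o x) y y'
        rw [this, map_add, map_add]
      map_smul' := fun c y => by
        have : ProjTensor.tmul ℝ (dl o x) (c • y) = c • ProjTensor.tmul ℝ (dl o x) y :=
          TensorProduct.tmul_smul c (dl o x) y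
        rw [this, map_smul, map_smul]
        rfl } (‖G‖ * ‖dl o x‖) (fun y => by
      refine (G.le_opNorm _).trans ?_
      rw [norm_incl, mul_assoc]
      exact mul_le_mul_of_nonneg_left (norm_tmul_le _ _) (norm_nonneg _)))
    (by
      refine ContinuousLinearMap.ext fun y => ?_
      show G (incl (ProjTensor.tmul ℝ (dl o o) y)) = 0
      have : ProjTensor.tmul ℝ (dl o o) y = 0 := by
        rw [dl_base]
        exact TensorProduct.zero_tmul _ _
      rw [this, map_zero, map_zero]) ‖G‖ (norm_nonneg _)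
    (fun a b => by
      refine ContinuousLinearMap.opNorm_le_bound _ (by positivity) fun y => ?_
      show ‖G (incl (ProjTensor.tmul ℝ (dl o a) y)) - G (incl (ProjTensor.tmul ℝ (dl o b) y))‖ ≤ _
      have : ProjTensor.tmul ℝ (dl o a) y - ProjTensor.tmul ℝ (dl o b) y =
          ProjTensor.tmul ℝ (dl o a - dl o b) y := (TensorProduct.sub_tmul _ _ _).symm
      rw [← map_sub, ← map_sub, this]
      refine (G.le_opNorm _).trans ?_
      rw [norm_incl, mul_assoc]
      refine mul_le_mul_of_nonneg_left ((norm_tmul_le _ _).trans ?_) (norm_nonneg _)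
      exact mul_le_mul_of_nonneg_right (norm_dl_sub_le a b) (norm_nonneg _))

lemma toLip_apply (G : StrongDual ℝ (ProjectiveTensorProduct ℝ (FreeSpace M o) X)) (x : M) (y : X) :
    (toLip G).fn x y = G (incl (ProjTensor.tmul ℝ (dl o x) y)) := rfl

lemma norm_toLip_le (G : StrongDual ℝ (ProjectiveTensorProduct ℝ (FreeSpace M o) X)) :
    ‖toLip G‖ ≤ ‖G‖ := by
  refine LipZ.norm_le_of _ (norm_nonneg _) fun a b => ?_
  refine ContinuousLinearMap.opNorm_le_bound _ (by positivity) fun y => ?_
  show ‖G (incl (ProjTensor.tmul ℝ (dl o a) y)) - G (incl (ProjTensor.tmul ℝ (dl o b) y))‖ ≤ _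
  have : ProjTensor.tmul ℝ (dl o a) y - ProjTensor.tmul ℝ (dl o b) y =
      ProjTensor.tmul ℝ (dl o a - dl o b) y := (TensorProduct.sub_tmul _ _ _).symm
  rw [← map_sub, ← map_sub, this]
  refine (G.le_opNorm _).trans ?_
  rw [norm_incl, mul_assoc]
  refine mul_le_mul_of_nonneg_left ((norm_tmul_le _ _).trans ?_) (norm_nonneg _)
  exact mul_le_mul_of_nonneg_right (norm_dl_sub_le a b) (norm_nonneg _)

/-- A functional is determined by its values at the tensors `δ_x ⊗ y`. -/
theorem functional_ext {G G' : StrongDual ℝ (ProjectiveTensorProduct ℝ (FreeSpace M o) X)}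
    (h : ∀ x y, G (incl (ProjTensor.tmul ℝ (dl o x) y)) =
      G' (incl (ProjTensor.tmul ℝ (dl o x) y))) : G = G' := by
  have h1 : ∀ (y : X) (μ : FreeSpace M o), G (incl (ProjTensor.tmul ℝ μ y)) =
      G' (incl (ProjTensor.tmul ℝ μ y)) := by
    intro y μ
    have hs : slc G y = slc G' y ∨ True := Or.inr trivial
    have key := free_induction (o := o) (p := fun μ => slc G y μ = slc G' y μ)
      (by rw [map_zero, map_zero]) (fun x => h x y)
      (fun a b ha hb => by rw [map_add, map_add, ha, hb])
      (fun c a ha => by rw [map_smul, map_smul, ha])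
      (isClosed_eq (slc G y).continuous (slc G' y).continuous) μ
    exact key
  have h2 : ∀ t : ProjTensor ℝ (FreeSpace M o) X, G (incl t) = G' (incl t) := by
    intro t
    obtain ⟨r, n, x, y, ht, -⟩ := t.repSums_nonempty
    rw [ht, map_sum, map_sum, map_sum]
    exact Finset.sum_congr rfl fun i _ => h1 _ _
  refine ContinuousLinearMap.ext fun z => ?_
  refine UniformSpace.Completion.induction_on z (isClosed_eq G.continuous G'.continuous) ?_
  exact h2

/-- `Lip_0(M, X*)` is the dual of the projective tensor product. -/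
noncomputable def dualEquiv :
    StrongDual ℝ (ProjectiveTensorProduct ℝ (FreeSpace M o) X) ≃ₗᵢ[ℝ]
      LipZ M o (StrongDual ℝ X) :=
  let L : StrongDual ℝ (ProjectiveTensorProduct ℝ (FreeSpace M o) X) →ₗ[ℝ]
      LipZ M o (StrongDual ℝ X) :=
    { toFun := toLip
      map_add' := fun G G' => LipZ.ext fun x => ContinuousLinearMap.ext fun y => rfl
      map_smul' := fun c G => LipZ.ext fun x => ContinuousLinearMap.ext fun y => rfl }
  have hinj : Function.Injective L := fun G G' h => functional_ext fun x y => by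
    have h1 : (toLip G).fn x y = (toLip G').fn x y := by
      have h2 : toLip G = toLip G' := h
      rw [h2]
    exact h1
  have hsurj : Function.Surjective L := fun f => by
    obtain ⟨G, -, hG⟩ := exists_functional f
    exact ⟨G, LipZ.ext fun x => ContinuousLinearMap.ext fun y => hG x y⟩
  { LinearEquiv.ofBijective L ⟨hinj, hsurj⟩ with
    norm_map' := fun G => by
      show ‖toLip G‖ = ‖G‖
      refine le_antisymm (norm_toLip_le G) ?_
      obtain ⟨G', hG1, hG2⟩ := exists_functional (toLip G)
      have h : G' = G := functional_ext fun x y => hG2 x y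
      rwa [h] at hG1 }

/-- The Daugavet property of `F(M) ⊗ X`. -/
theorem daugavet_tensor (hD : Daugavet (LipZ M o ℝ)) :
    Daugavet (ProjectiveTensorProduct ℝ (FreeSpace M o) X) :=
  daugavet_of_dual (daugavet_congr dualEquiv.symm (daugavet_lip hD))

end free

end Pool.Agent.U559.DL
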