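import Pool.Agent.R280.LipSD2P

/-!
The Daugavet property passes from `Lip_0(M)` to `Lip_0(M, X)`.
-/

set_option autoImplicit false
set_option linter.unusedSectionVars false

open Set Topology Filter

universe u v w

namespace Pool.Agent.U559.DL

open Pool.Agent.R280.Lip

variable {M : Type u} [MetricSpace M] {o : M} {X : Type v} [NormedAddCommGroup X] [NormedSpace ℝ X]

/-- The Daugavet property passes from `Lip_0(M)` to `Lip_0(M, X)`. -/
theorem daugavet_lip (hD : Daugavet (LipZ M o ℝ)) : Daugavet (LipZ M o X) := by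
  refine daugavet_of fun φ g hφ hg ε hε => ?_
  -- parameters
  set ε1 : ℝ := min (ε / 20) (1 / 100) with hε1def
  have hε1 : 0 < ε1 := lt_min (by positivity) (by norm_num)
  have hε1a : ε1 ≤ ε / 20 := min_le_left _ _
  have hε1b : ε1 ≤ 1 / 100 := min_le_right _ _
  set δ : ℝ := min (ε / 8) (1 / 2) with hδdef
  have hδ : 0 < δ := lt_min (by positivity) (by norm_num)
  have hδa : δ ≤ ε / 8 := min_le_left _ _
  have hδb : δ ≤ 1 / 2 := min_le_right _ _
  -- an almost norming element for `φ`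
  obtain ⟨f0, hf1, hf2⟩ : ∃ f0 : LipZ M o X, ‖f0‖ ≤ 1 ∧ 1 - ε / 4 < φ f0 := by
    obtain ⟨z, hz1, hz2⟩ := φ.exists_lt_apply_of_lt_opNorm (show 1 - ε / 4 < ‖φ‖ by
      rw [hφ]; linarith)
    rw [Real.norm_eq_abs] at hz2
    rcases lt_abs.1 hz2 with h | h
    · exact ⟨z, hz1.le, h⟩
    · exact ⟨-z, by rw [norm_neg]; exact hz1.le, by rwa [map_neg]⟩
  have hflip : ∀ x y, ‖f0.fn x - f0.fn y‖ ≤ dist x y := fun x y =>
    (f0.sub_le x y).trans (mul_le_of_le_one_left dist_nonneg hf1)
  have hglip : ∀ x y, ‖g.fn x - g.fn y‖ ≤ dist x y := fun x y =>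
    (g.sub_le x y).trans (mul_le_of_le_one_left dist_nonneg hg.le)
  obtain ⟨N, hN⟩ := exists_nat_gt (24 / ε)
  have hN0 : (0 : ℝ) < N := lt_trans (by positivity) hN
  have hNpos : 0 < N := Nat.cast_pos.1 hN0
  have hN2 : 24 < N * ε := by rwa [div_lt_iff₀ hε] at hN
  obtain ⟨x0, y0, hne, hxy⟩ := g.exists_pair (c := 1 - ε1) (by linarith) (by rw [hg]; linarith)
  obtain ⟨ρ, hρ, hpairs⟩ := exists_pairs (o := o) hD hglip hε1 hε1b hne hxy.le N
  obtain ⟨u, v, h1, h2, h3, h4⟩ := hpairs (ρ * Real.exp (-δ⁻¹)) (by positivity)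
  -- the modified maps
  let G : Fin N → M → X := fun k x => f0.fn (u k) + (g.fn x - g.fn (u k))
  have hGF : ∀ k x, ‖G k x - f0.fn x‖ ≤ 2 * dist x (u k) := by
    intro k x
    have e1 : G k x - f0.fn x = (g.fn x - g.fn (u k)) - (f0.fn x - f0.fn (u k)) := by
      show f0.fn (u k) + (g.fn x - g.fn (u k)) - f0.fn x = _
      abel
    rw [e1]
    refine (norm_sub_le _ _).trans ?_
    have e2 := hglip x (u k)
    have e3 := hflip x (u k)
    linarith
  have hGG : ∀ k x y, ‖G k x - G k y‖ ≤ dist x y := by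
    intro k x y
    have e1 : G k x - G k y = g.fn x - g.fn y := by
      show f0.fn (u k) + (g.fn x - g.fn (u k)) - (f0.fn (u k) + (g.fn y - g.fn (u k))) = _
      abel
    rw [e1]
    exact hglip x y
  let w : Fin N → M → X := fun k => glue (u k) ρ δ f0.fn (G k)
  have hw : ∀ k x y, ‖w k x - w k y‖ ≤ (1 + 2 * δ) * dist x y := by
    intro k x y
    obtain ⟨θ, hθ, hle⟩ := glue_sub (F := f0.fn) (G := G k) (p := u k) hρ hδ zero_le_two
      (hGF k) x y
    have hθ0 : 0 ≤ θ ∧ θ ≤ 1 := by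
      rcases hθ with h | h <;> rw [h] <;> exact cut_mem hρ hδ _
    have e1 := mul_le_mul_of_nonneg_left (hflip x y) (show 0 ≤ 1 - θ by linarith [hθ0.2])
    have e2 := mul_le_mul_of_nonneg_left (hGG k x y) hθ0.1
    refine hle.trans ?_
    have e3 : (1 + 2 * δ) * dist x y =
        (1 - θ) * dist x y + θ * dist x y + 2 * δ * dist x y := by ring
    rw [e3]
    linarith
  let b : Fin N → M → X := fun k x => w k x - f0.fn x
  have hb : ∀ k x, b k x = cut (u k) ρ δ x • (G k x - f0.fn x) := by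
    intro k x
    show (1 - cut (u k) ρ δ x) • f0.fn x + cut (u k) ρ δ x • G k x - f0.fn x = _
    rw [sub_smul, one_smul, smul_sub]
    abel
  have hb1 : ∀ k x y, ‖b k x - b k y‖ ≤ 3 * dist x y := by
    intro k x y
    have e1 : b k x - b k y = (w k x - w k y) - (f0.fn x - f0.fn y) := by
      show (w k x - f0.fn x) - (w k y - f0.fn y) = _
      abel
    rw [e1]
    refine (norm_sub_le _ _).trans ?_
    have e2 := hw k x y
    have e3 := hflip x y
    have e4 := dist_nonneg (x := x) (y := y)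
    nlinarith
  have hb2 : ∀ k x, b k x ≠ 0 → x ∈ {x : M | dist x (u k) < ρ} := by
    intro k x h
    show dist x (u k) < ρ
    by_contra hcon
    push Not at hcon
    apply h
    rw [hb, cut_outer hρ hδ hcon, zero_smul]
  have hdis : ∀ j k, j ≠ k → Disjoint {x : M | dist x (u j) < ρ} {x : M | dist x (u k) < ρ} := by
    intro j k hjk
    refine Set.disjoint_left.2 fun x hx hx' => ?_
    have e1 : dist x (u j) < ρ := hx
    have e2 : dist x (u k) < ρ := hx'
    have e3 := h4 j k hjk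
    have e4 := dist_triangle_left (u j) (u k) x
    linarith
  -- as elements of the space
  have hex : ∀ k : Fin N, ∃ H : LipZ M o X,
      (∀ x, H.fn x = b k x - b k o) ∧ ‖f0 + H‖ ≤ 1 + 2 * δ := by
    intro k
    refine ⟨LipZ.mk' (fun x => b k x - b k o) (sub_self _) 3 (by norm_num) (fun x y => by
      rw [sub_sub_sub_cancel_right]
      exact hb1 k x y), fun x => rfl, ?_⟩
    refine LipZ.norm_le_of _ (by positivity) fun x y => ?_
    rw [LipZ.fn_add, LipZ.fn_add, LipZ.fn_mk, LipZ.fn_mk]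
    refine le_trans (le_of_eq ?_) (hw k x y)
    congr 1
    show f0.fn x + (w k x - f0.fn x - b k o) - (f0.fn y + (w k y - f0.fn y - b k o)) = _
    abel
  choose H hH1 hH2 using hex
  have hsum : ‖∑ k, H k‖ ≤ 6 := by
    refine LipZ.norm_le_of _ (by norm_num) fun x y => ?_
    rw [← LipZ.evd_apply x y (∑ k, H k), map_sum]
    have e2 : ∀ k, LipZ.evd x y (H k) = b k x - b k y := by
      intro k
      rw [LipZ.evd_apply, hH1, hH1, sub_sub_sub_cancel_right]
    simp only [e2]
    exact sum_disjoint hdis hb2 hb1 x y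
  have hφge : ∀ z : LipZ M o X, |φ z| ≤ ‖z‖ := by
    intro z
    have := φ.le_opNorm z
    rwa [hφ, one_mul, Real.norm_eq_abs] at this
  obtain ⟨k, hk⟩ : ∃ k, -(ε / 4) ≤ φ (H k) := by
    by_contra hcon
    push Not at hcon
    have e1 : ∑ k, φ (H k) ≤ ∑ _k : Fin N, (-(ε / 4)) :=
      Finset.sum_le_sum fun k _ => (hcon k).le
    rw [Finset.sum_const, Finset.card_univ, Fintype.card_fin, nsmul_eq_mul, ← map_sum] at e1
    have e2 := (abs_le.1 (hφge (∑ k, H k))).1
    linarith
  refine ⟨f0 + H k, (hH2 k).trans (by linarith), ?_, ?_⟩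
  · have e1 := (abs_le.1 (hφge (f0 + H k))).2
    have e2 := hH2 k
    rw [map_add] at e1 ⊢
    rw [abs_le]
    constructor <;> linarith
  · -- the norm of the sum
    have hr0 : 0 < dist (u k) (v k) := dist_pos.2 (h1 k)
    have hin1 : w k (u k) = G k (u k) := by
      have e1 : cut (u k) ρ δ (u k) = 1 := cut_inner hρ hδ (by
        rw [dist_self]
        have := Real.exp_pos (-δ⁻¹)
        positivity)
      show (1 - cut (u k) ρ δ (u k)) • f0.fn (u k) + cut (u k) ρ δ (u k) • G k (u k) = _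
      rw [e1]
      simp
    have hin2 : w k (v k) = G k (v k) := by
      have e1 : cut (u k) ρ δ (v k) = 1 := cut_inner hρ hδ (by
        rw [dist_comm]
        exact (h2 k).le)
      show (1 - cut (u k) ρ δ (v k)) • f0.fn (v k) + cut (u k) ρ δ (v k) • G k (v k) = _
      rw [e1]
      simp
    have e1 := (f0 + H k + g).sub_le (u k) (v k)
    have e2 : (f0 + H k + g).fn (u k) - (f0 + H k + g).fn (v k) =
        (2 : ℝ) • (g.fn (u k) - g.fn (v k)) := by
      rw [LipZ.fn_add, LipZ.fn_add, LipZ.fn_add, LipZ.fn_add, hH1, hH1]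
      show f0.fn (u k) + (w k (u k) - f0.fn (u k) - b k o) + g.fn (u k) -
        (f0.fn (v k) + (w k (v k) - f0.fn (v k) - b k o) + g.fn (v k)) = _
      rw [hin1, hin2]
      show f0.fn (u k) + (f0.fn (u k) + (g.fn (u k) - g.fn (u k)) - f0.fn (u k) - b k o) +
        g.fn (u k) - (f0.fn (v k) + (f0.fn (u k) + (g.fn (v k) - g.fn (u k)) - f0.fn (v k) - b k o)
          + g.fn (v k)) = _
      rw [two_smul]
      abel
    rw [e2, norm_smul, Real.norm_of_nonneg zero_le_two] at e1
    have e3 := h3 k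
    have e4 : 2 * (1 - 5 * ε1) * dist (u k) (v k) ≤ ‖f0 + H k + g‖ * dist (u k) (v k) := by
      linarith
    have e5 := le_of_mul_le_mul_right e4 hr0
    linarith

end Pool.Agent.U559.DL
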